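import Pool.Agent.H75.L.W662.CB.Stmts

set_option autoImplicit false

open MeasureTheory Filter Topology Complex
open scoped InnerProductSpace ENNReal

namespace Pool.Agent.W919.CB

open Pool.Agent.W662.CB

noncomputable section

/-- the multiplier of the box -/
def mz (W : ℝ) (z : ℂ) : ℝ → ℂ := fun w : ℝ => Set.indicator (Set.Icc 0 W)
  (fun w : ℝ => Complex.exp (2 * Real.pi * I * z * w)) w

/-- the characters -/
def ch (t : ℝ) : ℝ → ℂ := fun w : ℝ => Complex.exp (2 * Real.pi * I * t * w)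

lemma mz_mem {W : ℝ} {w : ℝ} (z : ℂ) (hw : w ∈ Set.Icc 0 W) :
    mz W z w = Complex.exp (2 * Real.pi * I * z * w) := by
  simp [mz, Set.indicator_of_mem hw]

lemma mz_not {W : ℝ} {w : ℝ} (z : ℂ) (hw : w ∉ Set.Icc 0 W) : mz W z w = 0 := by
  simp only [mz]
  exact Set.indicator_of_notMem hw _

lemma mz_mul (W : ℝ) (z z' : ℂ) : (fun s => mz W z s * mz W z' s) = mz W (z + z') := by
  funext s
  by_cases hs : s ∈ Set.Icc 0 W
  · rw [mz_mem z hs, mz_mem z' hs, mz_mem _ hs, ← Complex.exp_add]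
    congr 1
    ring
  · rw [mz_not z hs, mz_not z' hs, mz_not (z + z') hs, zero_mul]

lemma mz_conj (W : ℝ) (z : ℂ) :
    (fun s => starRingEnd ℂ (mz W z s)) = mz W (-(starRingEnd ℂ z)) := by
  funext s
  by_cases hs : s ∈ Set.Icc 0 W
  · rw [mz_mem z hs, mz_mem _ hs, ← Complex.exp_conj]
    congr 1
    simp only [map_mul, Complex.conj_ofReal, Complex.conj_I, map_ofNat]
    ring
  · rw [mz_not z hs, mz_not _ hs, map_zero]

lemma ch_mul (t t' : ℝ) : (fun s => ch t s * ch t' s) = ch (t + t') := by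
  funext s
  simp only [ch]
  rw [← Complex.exp_add]
  congr 1
  push_cast
  ring

lemma ch_conj (t : ℝ) : (fun s => starRingEnd ℂ (ch t s)) = ch (-t) := by
  funext s
  simp only [ch]
  rw [← Complex.exp_conj]
  congr 1
  simp only [map_mul, Complex.conj_ofReal, Complex.conj_I, map_ofNat]
  push_cast
  ring

lemma ch_zero : ch 0 = fun _ => (1 : ℂ) := by
  funext s
  simp [ch]

lemma ch_norm (t s : ℝ) : ‖ch t s‖ ≤ 1 := by
  have : ch t s = Complex.exp (((2 * Real.pi * t * s : ℝ) : ℂ) * I) := by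
    simp only [ch]
    congr 1
    push_cast
    ring
  rw [this, Complex.norm_exp_ofReal_mul_I]

lemma ch_meas (t : ℝ) : Measurable (ch t) := by
  unfold ch
  fun_prop

variable {H : Type} [NormedAddCommGroup H] [InnerProductSpace ℂ H] [CompleteSpace H]

lemma mulop_one : IsMulOp (H := H) (fun _ => (1 : ℂ)) 1 := by
  intro f
  refine Eventually.of_forall (fun s => ?_)
  simp

theorem e7 (h2 : S_E2) (h2b : S_E2b) (h4 : S_E4) (h5 : S_E5) (h6 : S_E6) : S_E7 := by
  intro H _ _ _ M ξ U hU κ hκ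
  obtain ⟨huq, hadj, hmul, hcom⟩ := h2b H
  have he' : ∀ t : ℝ, ∃ S : LR H →L[ℂ] LR H, IsMulOp (ch t) S := fun t => by
    obtain ⟨S, hS, _⟩ := h2 H (ch t) 1 (ch_meas t) (ch_norm t)
    exact ⟨S, hS⟩
  choose e he using he'
  -- algebra of the characters
  have e_zero : e 0 = 1 := by
    have := he 0
    rw [ch_zero] at this
    exact huq _ _ _ this mulop_one
  have e_add : ∀ s t : ℝ, e (s + t) = e s * e t := fun s t => by
    have h := hmul _ _ _ _ (he s) (he t)
    rw [ch_mul] at h
    exact huq _ _ _ (he (s + t)) h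
  have e_star : ∀ t : ℝ, star (e t) = e (-t) := fun t => by
    refine hadj _ _ _ (he t) ?_
    rw [ch_conj]
    exact he (-t)
  have e_κ : ∀ (t : ℝ) (y : H →L[ℂ] H), e t * κ y = κ y * e t := fun t y =>
    hcom _ y _ _ (he t) (hκ y)
  refine ⟨e, he, ?_⟩
  intro δ hδ
  set d : ℝ := min δ 1 with hd
  have hd0 : 0 < d := lt_min hδ one_pos
  have hd1 : d ≤ 1 := min_le_right _ _
  have hdδ : d ≤ δ := min_le_left _ _
  set W : ℝ := Real.log (1 + d) / (2 * Real.pi) with hW
  have hpi : 0 < 2 * Real.pi := by positivity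
  have hW0 : 0 < W := div_pos (Real.log_pos (by linarith)) hpi
  have hWd : Real.exp (2 * Real.pi * W) - 1 = d := by
    have : 2 * Real.pi * W = Real.log (1 + d) := by
      rw [hW]
      field_simp
    rw [this, Real.exp_log (by linarith)]
    ring
  obtain ⟨E, hE, hEd, hEn⟩ := h4 H W hW0
  obtain ⟨J, hJ, hJi, hJa⟩ := h5 H W hW0
  obtain ⟨horth, hcompl⟩ := h6 H W hW0 E J hE hJ hJi hJa
  have hE' : ∀ z, IsMulOp (mz W z) (E z) := hE
  have E_add : ∀ z z' : ℂ, E (z + z') = E z * E z' := fun z z' => by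
    have h := hmul _ _ _ _ (hE' z) (hE' z')
    rw [mz_mul] at h
    exact huq _ _ _ (hE' (z + z')) h
  have E_star : ∀ z : ℂ, star (E z) = E (-(starRingEnd ℂ z)) := fun z => by
    refine hadj _ _ _ (hE' z) ?_
    rw [mz_conj]
    exact hE' _
  have E_κ : ∀ (y : H →L[ℂ] H) (z : ℂ), κ y * E z = E z * κ y := fun y z =>
    (hcom _ y _ _ (hE' z) (hκ y)).symm
  have e_E : ∀ (t : ℝ) (z : ℂ), e t * E z = E z * e t := fun t z => by
    have h := hmul _ _ _ _ (he t) (hE' z)
    have h' := hmul _ _ _ _ (hE' z) (he t)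
    have : (fun s => mz W z s * ch t s) = (fun s => ch t s * mz W z s) := by
      funext s
      ring
    rw [this] at h'
    exact huq _ _ _ h h'
  have κJ : ∀ (y : H →L[ℂ] H) (v : H), κ y (J v) = J (y v) := fun y v => by
    apply Lp.ext
    filter_upwards [hκ y (J v), hJ v, hJ (y v)] with s h1 h2' h3
    rw [h1, h2', h3]
    by_cases hs : s ∈ Set.Icc 0 W
    · rw [Set.indicator_of_mem hs, Set.indicator_of_mem hs, map_smul]
    · rw [Set.indicator_of_notMem hs, Set.indicator_of_notMem hs, map_zero]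
  have eJ : ∀ (t : ℝ) (v : H), e t (J v) = E t (J v) := fun t v => by
    apply Lp.ext
    filter_upwards [he t (J v), hE' t (J v), hJ v] with s h1 h2' h3
    rw [h1, h2', h3]
    by_cases hs : s ∈ Set.Icc 0 W
    · rw [mz_mem _ hs]
      rfl
    · rw [Set.indicator_of_notMem hs, smul_zero, smul_zero]
  have EJ : ∀ v : H, E 0 (J v) = J v := fun v => by
    apply Lp.ext
    filter_upwards [hE' 0 (J v), hJ v] with s h1 h2'
    rw [h1, h2']
    by_cases hs : s ∈ Set.Icc 0 W
    · rw [mz_mem _ hs]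
      simp
    · rw [Set.indicator_of_notMem hs, smul_zero]
  have hnE : ∀ z : ℂ, ‖z‖ ≤ 1 → ‖E z - E 0‖ ≤ d := fun z hz => by
    refine (hEn z).trans ?_
    rw [← hWd]
    have : 2 * Real.pi * ‖z‖ * W ≤ 2 * Real.pi * W := by
      have h7 : 0 ≤ 2 * Real.pi * W := by positivity
      nlinarith
    have := Real.exp_le_exp.2 this
    linarith
  refine ⟨J, E, 1 / W, d, W, hdδ, ?_, hW0, ?_⟩
  · refine ⟨?_, ?_, ?_, E_add, E_star, hEd, ?_, E_κ, hJi, EJ, κJ, ?_, horth, hcompl, ?_, ?_,
      ?_, ?_, by positivity, hd0.le, hd1⟩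
    · show e 0 * κ (U 0) = 1
      rw [hU.zero, e_zero, map_one, mul_one]
    · intro s t
      show e (s + t) * κ (U (s + t)) = e s * κ (U s) * (e t * κ (U t))
      rw [e_add, hU.add, map_mul]
      calc e s * e t * (κ (U s) * κ (U t)) = e s * (e t * κ (U s)) * κ (U t) := by
            simp only [mul_assoc]
        _ = e s * (κ (U s) * e t) * κ (U t) := by rw [e_κ]
        _ = e s * κ (U s) * (e t * κ (U t)) := by simp only [mul_assoc]
    · intro t
      show star (e t * κ (U t)) = e (-t) * κ (U (-t))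
      rw [star_mul, e_star, ← map_star, hU.star_eq, e_κ]
    · intro t z
      show e t * κ (U t) * E z = E z * (e t * κ (U t))
      calc e t * κ (U t) * E z = e t * (κ (U t) * E z) := by rw [mul_assoc]
        _ = e t * (E z * κ (U t)) := by rw [E_κ]
        _ = (e t * E z) * κ (U t) := by rw [mul_assoc]
        _ = E z * e t * κ (U t) := by rw [e_E]
        _ = E z * (e t * κ (U t)) := by rw [mul_assoc]
    · intro t v
      show (e t * κ (U t)) (J v) = E t (J (U t v))
      rw [ContinuousLinearMap.mul_apply, κJ, eJ]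
    · exact hnE _ (by simp)
    · exact hnE _ (by simp)
    · exact hnE _ (by simp; norm_num)
    · exact hnE _ (by simp; norm_num)
  · have h8 := hE' 0
    have : mz W 0 = Set.indicator (Set.Icc 0 W) (fun _ => (1 : ℂ)) := by
      funext s
      by_cases hs : s ∈ Set.Icc 0 W
      · rw [mz_mem _ hs, Set.indicator_of_mem hs]
        simp
      · rw [mz_not _ hs, Set.indicator_of_notMem hs]
    rw [this] at h8
    exact h8

end

end Pool.Agent.W919.CB
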